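import Pool.Agent.K7.H41.GN.Syn

set_option autoImplicit false

/-!
Amalgams of copies of a structure along a bipartite graph.
-/

namespace Pool.Agent.K7.H41.GN

open FirstOrder Set Pool.Agent.H565R2.FO2

/-- The points of the amalgam: shared points, the two sides of the graph, spare points, and the
other points of the copies. -/
inductive D0 : Type
  | k : ℕ → D0
  | x : ℕ → D0
  | y : ℕ → D0
  | b : ℕ → ℕ → D0
  | a : ℕ → ℕ → D0
  | i : ℕ → ℕ → Bool → ℕ → D0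
  deriving DecidableEq

/-- The points which occur. -/
def Vd (K : Set ℕ) (a b : ℕ) : D0 → Prop
  | .k m => m ∈ K
  | .i _ _ _ m => m ∉ K ∧ m ≠ a ∧ m ≠ b
  | _ => True

/-- The edges of the graph. -/
def lnk (S : ℕ → Bool) (p q : ℕ) : Bool := decide (q % 2 = 0 ∨ q / 2 < p ∨ S (q / 2) = false)

/-- The copy contains the point. -/
def mem (S : ℕ → Bool) : D0 → ℕ → ℕ → Bool → Prop
  | .k _, _, _, _ => True
  | .x p', p, _, c => p' = p ∧ c = false
  | .a p' q', p, q, c => p' = p ∧ q' = q ∧ c = true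
  | .y q', p, q, c => q' = q ∧ c = !(lnk S p q)
  | .b p' q', p, q, c => p' = p ∧ q' = q ∧ c = lnk S p q
  | .i p' q' c' _, p, q, c => p' = p ∧ q' = q ∧ c' = c

/-- The projection. -/
def prj (a b : ℕ) : D0 → ℕ
  | .k m => m
  | .x _ => a
  | .y _ => b
  | .a _ _ => a
  | .b _ _ => b
  | .i _ _ _ m => m

open Classical in
/-- The copies. -/
noncomputable def emb (S : ℕ → Bool) (K : Set ℕ) (a b : ℕ) (p q : ℕ) (c : Bool) (m : ℕ) : D0 :=
  if m ∈ K then .k m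
  else if m = a then (if c = false then .x p else .a p q)
  else if m = b then (if c = !(lnk S p q) then .y q else .b p q)
  else .i p q c m

section

variable {S : ℕ → Bool} {K : Set ℕ} {a b : ℕ}

theorem emb_vd (p q : ℕ) (c : Bool) (m : ℕ) : Vd K a b (emb S K a b p q c m) := by
  unfold emb
  split_ifs with h1 h2 h3 h4 h5
  · exact h1
  · trivial
  · trivial
  · trivial
  · trivial
  · exact ⟨h1, h2, h4⟩

theorem prj_emb (p q : ℕ) (c : Bool) (m : ℕ) : prj a b (emb S K a b p q c m) = m := by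
  unfold emb
  split_ifs with h1 h2 h3 h4 h5
  · rfl
  · exact h2.symm
  · exact h2.symm
  · exact h4.symm
  · exact h4.symm
  · rfl

theorem mem_emb (p q : ℕ) (c : Bool) (m : ℕ) : mem S (emb S K a b p q c m) p q c := by
  unfold emb
  split_ifs with h1 h2 h3 h4 h5
  · trivial
  · exact ⟨rfl, h3⟩
  · exact ⟨rfl, rfl, by simpa using h3⟩
  · exact ⟨rfl, h5⟩
  · refine ⟨rfl, rfl, ?_⟩
    cases c <;> cases h : lnk S p q <;> simp_all
  · exact ⟨rfl, rfl, rfl⟩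

theorem emb_of_mem (hab : a ≠ b) (ha : a ∉ K) (hb : b ∉ K) {d : D0} {p q : ℕ} {c : Bool}
    (hd : Vd K a b d) (h : mem S d p q c) : emb S K a b p q c (prj a b d) = d := by
  unfold emb
  cases d with
  | k m => exact if_pos hd
  | x p' =>
    obtain ⟨rfl, rfl⟩ := h
    simp [prj, ha]
  | y q' =>
    obtain ⟨rfl, rfl⟩ := h
    simp [prj, hb, hab.symm]
  | a p' q' =>
    obtain ⟨rfl, rfl, rfl⟩ := h
    simp [prj, ha]
  | b p' q' =>
    obtain ⟨rfl, rfl, rfl⟩ := h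
    simp [prj, hb, hab.symm]
  | i p' q' c' m =>
    obtain ⟨rfl, rfl, rfl⟩ := h
    obtain ⟨h1, h2, h3⟩ := hd
    simp [prj, h1, h2, h3]

theorem mem_all (d : D0) : ∃ p q c, mem S d p q c := by
  cases d with
  | k m => exact ⟨0, 0, false, trivial⟩
  | x p => exact ⟨p, 0, false, rfl, rfl⟩
  | y q => exact ⟨0, q, _, rfl, rfl⟩
  | a p q => exact ⟨p, q, true, rfl, rfl, rfl⟩
  | b p q => exact ⟨p, q, _, rfl, rfl, rfl⟩
  | i p q c m => exact ⟨p, q, c, rfl, rfl, rfl⟩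

/-- A clique lies in one copy. -/
theorem mem_clq (Q : Set D0)
    (hQ : ∀ u ∈ Q, ∀ w ∈ Q, ∃ p q c, mem S u p q c ∧ mem S w p q c) :
    ∃ p q c, ∀ u ∈ Q, mem S u p q c := by
  by_cases h1 : ∃ u ∈ Q, ∃ p q c, ∀ p' q' c', mem S u p' q' c' → p' = p ∧ q' = q ∧ c' = c
  · obtain ⟨u, hu, p, q, c, h⟩ := h1
    refine ⟨p, q, c, fun w hw => ?_⟩
    obtain ⟨p', q', c', h2, h3⟩ := hQ u hu w hw
    obtain ⟨rfl, rfl, rfl⟩ := h _ _ _ h2
    exact h3
  have hA : ∀ p q, D0.a p q ∉ Q := fun p q h => h1 ⟨_, h, p, q, true,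
    fun p' q' c' ⟨h2, h3, h4⟩ => ⟨h2.symm, h3.symm, h4⟩⟩
  have hB : ∀ p q, D0.b p q ∉ Q := fun p q h => h1 ⟨_, h, p, q, lnk S p q,
    fun p' q' c' ⟨h2, h3, h4⟩ => by subst h2 h3; exact ⟨rfl, rfl, h4⟩⟩
  have hI : ∀ p q c m, D0.i p q c m ∉ Q := fun p q c m h => h1 ⟨_, h, p, q, c,
    fun p' q' c' ⟨h2, h3, h4⟩ => ⟨h2.symm, h3.symm, h4.symm⟩⟩
  have hX : ∀ p p', D0.x p ∈ Q → D0.x p' ∈ Q → p = p' := by
    intro p p' h h'
    obtain ⟨p'', q'', c'', ⟨h2, -⟩, ⟨h3, -⟩⟩ := hQ _ h _ h'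
    rw [h2, h3]
  have hY : ∀ p p', D0.y p ∈ Q → D0.y p' ∈ Q → p = p' := by
    intro p p' h h'
    obtain ⟨p'', q'', c'', ⟨h2, -⟩, ⟨h3, -⟩⟩ := hQ _ h _ h'
    rw [h2, h3]
  have fin : ∀ p q c, (∀ p', D0.x p' ∈ Q → mem S (D0.x p') p q c) →
      (∀ q', D0.y q' ∈ Q → mem S (D0.y q') p q c) → ∃ p q c, ∀ u ∈ Q, mem S u p q c := by
    intro p q c h2 h3
    refine ⟨p, q, c, fun u hu => ?_⟩
    cases u with
    | k m => trivial
    | x p' => exact h2 p' hu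
    | y q' => exact h3 q' hu
    | a p' q' => exact absurd hu (hA _ _)
    | b p' q' => exact absurd hu (hB _ _)
    | i p' q' c' m => exact absurd hu (hI _ _ _ _)
  by_cases hx : ∃ p, D0.x p ∈ Q
  · obtain ⟨p0, hp0⟩ := hx
    by_cases hy : ∃ q, D0.y q ∈ Q
    · obtain ⟨q0, hq0⟩ := hy
      obtain ⟨p, q, c, h2, h3⟩ := hQ _ hp0 _ hq0
      exact fin p q c (fun p' hp' => hX _ _ hp0 hp' ▸ h2) (fun q' hq' => hY _ _ hq0 hq' ▸ h3)
    · exact fin p0 0 false (fun p' hp' => ⟨hX _ _ hp' hp0, rfl⟩)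
        (fun q' hq' => absurd ⟨q', hq'⟩ hy)
  · by_cases hy : ∃ q, D0.y q ∈ Q
    · obtain ⟨q0, hq0⟩ := hy
      exact fin 0 q0 _ (fun p' hp' => absurd ⟨p', hp'⟩ hx)
        (fun q' hq' => ⟨hY _ _ hq' hq0, rfl⟩)
    · exact fin 0 0 false (fun p' hp' => absurd ⟨p', hp'⟩ hx)
        (fun q' hq' => absurd ⟨q', hq'⟩ hy)

end

/-- The points of the amalgam. -/
abbrev Dm (K : Set ℕ) (a b : ℕ) : Type := {d : D0 // Vd K a b d}

instance : Countable D0 := by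
  have h : Function.Injective (fun d : D0 => (match d with
    | .k m => Sum.inl (Sum.inl (Sum.inl m))
    | .x m => Sum.inl (Sum.inl (Sum.inr m))
    | .y m => Sum.inl (Sum.inr (Sum.inl m))
    | .b p q => Sum.inl (Sum.inr (Sum.inr (p, q)))
    | .a p q => Sum.inr (Sum.inl (p, q))
    | .i p q c m => Sum.inr (Sum.inr (p, q, c, m)) :
      ((ℕ ⊕ ℕ) ⊕ (ℕ ⊕ (ℕ × ℕ))) ⊕ ((ℕ × ℕ) ⊕ (ℕ × ℕ × Bool × ℕ)))) := by
    intro d d' hd
    cases d <;> cases d' <;> simp_all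
  exact h.countable

instance (K : Set ℕ) (a b : ℕ) : Infinite (Dm K a b) :=
  Infinite.of_injective (fun n : ℕ => (⟨.x n, trivial⟩ : Dm K a b)) fun m n h => by
    simpa using congrArg Subtype.val h

/-- The numbering of the points of the amalgam. -/
noncomputable def num (K : Set ℕ) (a b : ℕ) : Dm K a b ≃ ℕ :=
  Classical.choice (by
    obtain ⟨h⟩ := nonempty_denumerable (Dm K a b)
    exact ⟨@Denumerable.eqv _ h⟩)

variable {L : FirstOrder.Language.{0, 0}}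

/-- The copies, as maps to the natural numbers. -/
noncomputable def cpy (S : ℕ → Bool) (K : Set ℕ) (a b : ℕ) (t : ℕ × ℕ × Bool) (m : ℕ) : ℕ :=
  num K a b ⟨emb S K a b t.1 t.2.1 t.2.2 m, emb_vd _ _ _ _⟩

/-- The amalgam. -/
def amI (I : Interp L ℕ) (K : Set ℕ) (a b : ℕ) (S : ℕ → Bool) : Interp L ℕ :=
  fun n R t => ∃ (i : ℕ × ℕ × Bool) (s : Fin n → ℕ), I n R s ∧ t = fun k => cpy S K a b i (s k)

theorem cpy_range {S : ℕ → Bool} {K : Set ℕ} {a b : ℕ} (hab : a ≠ b) (ha : a ∉ K) (hb : b ∉ K)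
    (d : Dm K a b) (i : ℕ × ℕ × Bool) :
    num K a b d ∈ range (cpy S K a b i) ↔ mem S d.1 i.1 i.2.1 i.2.2 := by
  constructor
  · rintro ⟨m, hm⟩
    have := (num K a b).injective hm
    rw [← this]
    exact mem_emb _ _ _ _
  · intro h
    refine ⟨prj a b d.1, ?_⟩
    unfold cpy
    congr 1
    exact Subtype.ext (emb_of_mem hab ha hb d.2 h)

theorem cov_am (I : Interp L ℕ) {K : Set ℕ} {a b : ℕ} (hab : a ≠ b) (ha : a ∉ K) (hb : b ∉ K)
    (S : ℕ → Bool) : Cov I (amI I K a b S) (cpy S K a b)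
      (fun u => prj a b ((num K a b).symm u).1) := by
  refine ⟨⟨(0, 0, false)⟩, fun i m => ?_, fun n R t => Iff.rfl, fun u => ?_, fun Q hQ => ?_⟩
  · show prj a b ((num K a b).symm (num K a b ⟨_, _⟩)).1 = m
    rw [Equiv.symm_apply_apply]
    exact prj_emb _ _ _ _
  · obtain ⟨p, q, c, h⟩ := mem_all (S := S) ((num K a b).symm u).1
    refine ⟨(p, q, c), ?_⟩
    have := (cpy_range hab ha hb ((num K a b).symm u) (p, q, c)).2 h
    rwa [Equiv.apply_symm_apply] at this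
  · have key : ∀ (u : ℕ) (i : ℕ × ℕ × Bool), u ∈ range (cpy S K a b i) ↔
        mem S ((num K a b).symm u).1 i.1 i.2.1 i.2.2 := by
      intro u i
      rw [← cpy_range hab ha hb, Equiv.apply_symm_apply]
    obtain ⟨p, q, c, h⟩ := mem_clq (S := S) ((fun u => ((num K a b).symm u).1) '' Q) (by
      rintro _ ⟨u, hu, rfl⟩ _ ⟨w, hw, rfl⟩
      obtain ⟨i, h1, h2⟩ := hQ u hu w hw
      exact ⟨i.1, i.2.1, i.2.2, (key _ _).1 h1, (key _ _).1 h2⟩)
    exact ⟨(p, q, c), fun u hu => (key _ _).2 (h _ ⟨u, hu, rfl⟩)⟩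

end Pool.Agent.K7.H41.GN
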