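import Pool.Agent.K7.H41.GN.Amal

set_option autoImplicit false

/-!
Decoding of the graph from the amalgam, and perfectly many models.
-/

namespace Pool.Agent.K7.H41.GN

open FirstOrder Set MeasureTheory Pool.Agent.H565R2.FO2
open Pool.Agent.H565R2.LO2 (PerfK perfK_of_inv)

variable {L : FirstOrder.Language.{0, 0}}

/-- The named elements. -/
def Kc (C : Set (L.Relations 1)) (I : Interp L ℕ) : Set ℕ := {u | ∃ R ∈ C, I 1 R fun _ => u}

/-- All symbols in `C` are interpreted by one-element sets. -/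
def Con (C : Set (L.Relations 1)) (I : Interp L ℕ) : Prop := ∀ R ∈ C, ∃! u, I 1 R fun _ => u

/-- The pair is at places `i`, `j` of a tuple of the relation. -/
def QQ (I : Interp L ℕ) {n : ℕ} (R : L.Relations n) (i j : Fin n) (u w : ℕ) : Prop :=
  ∃ t : Fin n → ℕ, I n R t ∧ t i = u ∧ t j = w

def XX (C : Set (L.Relations 1)) (I : Interp L ℕ) {n : ℕ} (R : L.Relations n) (i j : Fin n)
    (u0 u1 w : ℕ) : Prop := w ∉ Kc C I ∧ QQ I R i j w u0 ∧ QQ I R i j w u1

def YY (C : Set (L.Relations 1)) (I : Interp L ℕ) {n : ℕ} (R : L.Relations n) (i j : Fin n)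
    (u0 u1 w : ℕ) : Prop := w ∉ Kc C I ∧ ∃ x x', x ≠ x' ∧ XX C I R i j u0 u1 x ∧
  XX C I R i j u0 u1 x' ∧ QQ I R i j x w ∧ QQ I R i j x' w

def IN (C : Set (L.Relations 1)) (I : Interp L ℕ) {n : ℕ} (R : L.Relations n) (i j : Fin n)
    (p : ℕ × ℕ) (k : ℕ) : Prop := ∃ w, YY C I R i j p.1 p.2 w ∧ ∃ s : Finset ℕ,
  s.card = k + 1 ∧ ∀ z, z ∈ s ↔ XX C I R i j p.1 p.2 z ∧ ¬ QQ I R i j z w

section iso

variable {I I' : Interp L ℕ} (g : ℕ ≃ ℕ)
  (hg : ∀ n (R : L.Relations n) (t : Fin n → ℕ), I n R t ↔ I' n R (fun k => g (t k)))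

include hg

theorem kc_iso (C : Set (L.Relations 1)) (u : ℕ) : u ∈ Kc C I ↔ g u ∈ Kc C I' :=
  exists_congr fun R => and_congr_right fun _ => hg 1 R _

theorem qq_iso {n : ℕ} (R : L.Relations n) (i j : Fin n) (u w : ℕ) :
    QQ I R i j u w ↔ QQ I' R i j (g u) (g w) := by
  constructor
  · rintro ⟨t, h1, rfl, rfl⟩
    exact ⟨_, (hg n R t).1 h1, rfl, rfl⟩
  · rintro ⟨t, h1, h2, h3⟩
    refine ⟨fun k => g.symm (t k), (hg n R _).2 ?_, ?_, ?_⟩
    · have : (fun k => g (g.symm (t k))) = t := funext fun k => g.apply_symm_apply _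
      rw [this]
      exact h1
    · show g.symm (t i) = u
      rw [h2, g.symm_apply_apply]
    · show g.symm (t j) = w
      rw [h3, g.symm_apply_apply]

theorem xx_iso (C : Set (L.Relations 1)) {n : ℕ} (R : L.Relations n) (i j : Fin n)
    (u0 u1 w : ℕ) : XX C I R i j u0 u1 w ↔ XX C I' R i j (g u0) (g u1) (g w) := by
  unfold XX
  rw [← qq_iso g hg, ← qq_iso g hg, kc_iso g hg]

theorem yy_iso (C : Set (L.Relations 1)) {n : ℕ} (R : L.Relations n) (i j : Fin n)
    (u0 u1 w : ℕ) : YY C I R i j u0 u1 w ↔ YY C I' R i j (g u0) (g u1) (g w) := by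
  unfold YY
  rw [kc_iso g hg]
  refine and_congr_right fun _ => ⟨?_, ?_⟩
  · rintro ⟨x, x', h1, h2, h3, h4, h5⟩
    exact ⟨g x, g x', fun h => h1 (g.injective h), (xx_iso g hg C R i j _ _ _).1 h2,
      (xx_iso g hg C R i j _ _ _).1 h3, (qq_iso g hg R i j _ _).1 h4,
      (qq_iso g hg R i j _ _).1 h5⟩
  · rintro ⟨x, x', h1, h2, h3, h4, h5⟩
    refine ⟨g.symm x, g.symm x', fun h => h1 (g.symm.injective h), ?_, ?_, ?_, ?_⟩
    · rw [xx_iso g hg, g.apply_symm_apply]; exact h2
    · rw [xx_iso g hg, g.apply_symm_apply]; exact h3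
    · rw [qq_iso g hg, g.apply_symm_apply]; exact h4
    · rw [qq_iso g hg, g.apply_symm_apply]; exact h5

theorem in_iso (C : Set (L.Relations 1)) {n : ℕ} (R : L.Relations n) (i j : Fin n)
    (p : ℕ × ℕ) (k : ℕ) : IN C I R i j p k ↔ IN C I' R i j (g p.1, g p.2) k := by
  constructor
  · rintro ⟨w, h1, s, h2, h3⟩
    refine ⟨g w, (yy_iso g hg C R i j _ _ _).1 h1, s.map g.toEmbedding, by
      rw [Finset.card_map, h2], fun z => ?_⟩
    rw [Finset.mem_map_equiv, h3, xx_iso g hg, qq_iso g hg, g.apply_symm_apply]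
  · rintro ⟨w, h1, s, h2, h3⟩
    refine ⟨g.symm w, ?_, s.map g.symm.toEmbedding, by rw [Finset.card_map, h2], fun z => ?_⟩
    · rw [yy_iso g hg, g.apply_symm_apply]
      exact h1
    · rw [Finset.mem_map_equiv, Equiv.symm_symm, h3, xx_iso g hg, qq_iso g hg,
        g.apply_symm_apply]

end iso

section dec

variable {I : Interp L ℕ} {K : Set ℕ} {a b : ℕ} {S : ℕ → Bool}

theorem qq_am {n : ℕ} {R : L.Relations n} {i j : Fin n} {u w : ℕ}
    (h : QQ (amI I K a b S) R i j u w) :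
    ∃ t, u ∈ range (cpy S K a b t) ∧ w ∈ range (cpy S K a b t) := by
  obtain ⟨_, ⟨t, s, hs, rfl⟩, rfl, rfl⟩ := h
  exact ⟨t, ⟨_, rfl⟩, ⟨_, rfl⟩⟩

theorem kc_am (C : Set (L.Relations 1)) (hK : K = Kc C I) (u : ℕ) :
    u ∈ Kc C (amI I K a b S) ↔ ∃ m, ∃ hm : m ∈ K, u = num K a b ⟨.k m, hm⟩ := by
  have hemb : ∀ m (hm : m ∈ K) (t : ℕ × ℕ × Bool), cpy S K a b t m = num K a b ⟨.k m, hm⟩ := by
    intro m hm t
    unfold cpy
    congr 1
    exact Subtype.ext (if_pos hm)
  constructor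
  · rintro ⟨R, hR, t, s, hs, hst⟩
    have hm : s 0 ∈ K := by
      rw [hK]
      refine ⟨R, hR, ?_⟩
      have : (fun _ : Fin 1 => s 0) = s := funext fun k => by rw [Subsingleton.elim k 0]
      rw [this]
      exact hs
    refine ⟨s 0, hm, ?_⟩
    have := congrFun hst 0
    change u = cpy S K a b t (s 0) at this
    rw [this, hemb _ hm]
  · rintro ⟨m, hm, rfl⟩
    have hm' := hm
    rw [hK] at hm'
    obtain ⟨R, hR, h⟩ := hm'
    exact ⟨R, hR, (0, 0, false), fun _ => m, h, funext fun _ => (hemb m hm _).symm⟩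

theorem con_am (C : Set (L.Relations 1)) (hK : K = Kc C I) (hI : Con C I) :
    Con C (amI I K a b S) := by
  intro R hR
  obtain ⟨m, hm, hmu⟩ := hI R hR
  have hmK : m ∈ K := by rw [hK]; exact ⟨R, hR, hm⟩
  have hemb : ∀ (t : ℕ × ℕ × Bool), cpy S K a b t m = num K a b ⟨.k m, hmK⟩ := by
    intro t
    unfold cpy
    congr 1
    exact Subtype.ext (if_pos hmK)
  refine ⟨num K a b ⟨.k m, hmK⟩, ⟨(0, 0, false), fun _ => m, hm, funext fun _ => (hemb _).symm⟩,
    ?_⟩
  rintro u ⟨t, s, hs, hst⟩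
  have h1 : s 0 = m := hmu _ (by
    have : (fun _ : Fin 1 => s 0) = s := funext fun k => by rw [Subsingleton.elim k 0]
    show I 1 R fun _ => s 0
    rw [this]
    exact hs)
  have h2 := congrFun hst 0
  change u = cpy S K a b t (s 0) at h2
  rw [h2, h1, hemb]

variable (hab : a ≠ b) (ha : a ∉ K) (hb : b ∉ K)
  {n : ℕ} {R : L.Relations n} {i j : Fin n} {s : Fin n → ℕ}
  (hs : I n R s) (hi : s i = a) (hj : s j = b)

include hab ha hb hs hi hj

theorem qq_xy (p q : ℕ) : QQ (amI I K a b S) R i j (num K a b ⟨.x p, trivial⟩)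
    (num K a b ⟨.y q, trivial⟩) ↔ lnk S p q = true := by
  constructor
  · intro h
    obtain ⟨t, h1, h2⟩ := qq_am h
    rw [cpy_range hab ha hb] at h1 h2
    obtain ⟨h3, h4⟩ := h1
    obtain ⟨h5, h6⟩ := h2
    rw [h4, ← h3, ← h5] at h6
    cases hl : lnk S p q
    · rw [hl] at h6
      exact absurd h6 (by decide)
    · rfl
  · intro h
    refine ⟨fun k => cpy S K a b (p, q, false) (s k), ⟨_, s, hs, rfl⟩, ?_, ?_⟩
    · show cpy S K a b (p, q, false) (s i) = _
      rw [hi]
      unfold cpy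
      congr 1
      refine Subtype.ext ?_
      show emb S K a b p q false a = .x p
      unfold emb
      rw [if_neg ha, if_pos rfl, if_pos rfl]
    · show cpy S K a b (p, q, false) (s j) = _
      rw [hj]
      unfold cpy
      congr 1
      refine Subtype.ext ?_
      show emb S K a b p q false b = .y q
      unfold emb
      rw [if_neg hb, if_neg hab.symm, if_pos rfl, if_pos (by rw [h]; rfl)]

theorem xx_am (C : Set (L.Relations 1)) (hK : K = Kc C I) (w : ℕ) :
    XX C (amI I K a b S) R i j (num K a b ⟨.y 0, trivial⟩) (num K a b ⟨.y 2, trivial⟩) w ↔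
      ∃ p, w = num K a b ⟨.x p, trivial⟩ := by
  constructor
  · rintro ⟨h1, h2, h3⟩
    obtain ⟨d, rfl⟩ := (num K a b).surjective w
    obtain ⟨t, h4, h5⟩ := qq_am h2
    obtain ⟨t', h6, h7⟩ := qq_am h3
    rw [cpy_range hab ha hb] at h4 h5 h6 h7
    obtain ⟨h5, -⟩ := h5
    obtain ⟨h7, -⟩ := h7
    obtain ⟨d, hd⟩ := d
    cases d with
    | k m => exact absurd ((kc_am C hK _).2 ⟨m, hd, rfl⟩) h1
    | x p => exact ⟨p, rfl⟩
    | y q =>
      have h8 : q = t.2.1 := h4.1
      have h9 : q = t'.2.1 := h6.1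
      omega
    | a p q =>
      have h8 : q = t.2.1 := h4.2.1
      have h9 : q = t'.2.1 := h6.2.1
      omega
    | b p q =>
      have h8 : q = t.2.1 := h4.2.1
      have h9 : q = t'.2.1 := h6.2.1
      omega
    | i p q c m =>
      have h8 : q = t.2.1 := h4.2.1
      have h9 : q = t'.2.1 := h6.2.1
      omega
  · rintro ⟨p, rfl⟩
    refine ⟨?_, ?_, ?_⟩
    · rw [kc_am C hK]
      rintro ⟨m, hm, h⟩
      have := congrArg Subtype.val ((num K a b).injective h)
      simp at this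
    · rw [qq_xy hab ha hb hs hi hj]
      simp [lnk]
    · rw [qq_xy hab ha hb hs hi hj]
      simp [lnk]

theorem yy_am (C : Set (L.Relations 1)) (hK : K = Kc C I) (w : ℕ) :
    YY C (amI I K a b S) R i j (num K a b ⟨.y 0, trivial⟩) (num K a b ⟨.y 2, trivial⟩) w ↔
      ∃ q, w = num K a b ⟨.y q, trivial⟩ := by
  constructor
  · rintro ⟨h1, x, x', hne, hx, hx', h2, h3⟩
    obtain ⟨p, rfl⟩ := (xx_am hab ha hb hs hi hj C hK x).1 hx
    obtain ⟨p', rfl⟩ := (xx_am hab ha hb hs hi hj C hK x').1 hx'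
    have hpp : p ≠ p' := fun h => hne (by subst h; rfl)
    obtain ⟨d, rfl⟩ := (num K a b).surjective w
    obtain ⟨t, h4, h5⟩ := qq_am h2
    obtain ⟨t', h6, h7⟩ := qq_am h3
    rw [cpy_range hab ha hb] at h4 h5 h6 h7
    obtain ⟨h4, -⟩ := h4
    obtain ⟨h6, -⟩ := h6
    obtain ⟨d, hd⟩ := d
    cases d with
    | k m => exact absurd ((kc_am C hK _).2 ⟨m, hd, rfl⟩) h1
    | x p'' =>
      have h8 : p'' = t.1 := h5.1
      have h9 : p'' = t'.1 := h7.1
      omega
    | y q => exact ⟨q, rfl⟩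
    | a p'' q =>
      have h8 : p'' = t.1 := h5.1
      have h9 : p'' = t'.1 := h7.1
      omega
    | b p'' q =>
      have h8 : p'' = t.1 := h5.1
      have h9 : p'' = t'.1 := h7.1
      omega
    | i p'' q c m =>
      have h8 : p'' = t.1 := h5.1
      have h9 : p'' = t'.1 := h7.1
      omega
  · rintro ⟨q, rfl⟩
    refine ⟨?_, num K a b ⟨.x (q + 1), trivial⟩, num K a b ⟨.x (q + 2), trivial⟩, ?_, ?_, ?_,
      ?_, ?_⟩
    · rw [kc_am C hK]
      rintro ⟨m, hm, h⟩
      have := congrArg Subtype.val ((num K a b).injective h)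
      simp at this
    · intro h
      have := congrArg Subtype.val ((num K a b).injective h)
      simp at this
    · exact (xx_am hab ha hb hs hi hj C hK _).2 ⟨_, rfl⟩
    · exact (xx_am hab ha hb hs hi hj C hK _).2 ⟨_, rfl⟩
    · rw [qq_xy hab ha hb hs hi hj]
      simp only [lnk, decide_eq_true_eq]
      right; left; omega
    · rw [qq_xy hab ha hb hs hi hj]
      simp only [lnk, decide_eq_true_eq]
      right; left; omega

theorem in_am (C : Set (L.Relations 1)) (hK : K = Kc C I) (k : ℕ) :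
    IN C (amI I K a b S) R i j (num K a b ⟨.y 0, trivial⟩, num K a b ⟨.y 2, trivial⟩) k ↔
      S k = true := by
  have hinj : ∀ p p' : ℕ, num K a b ⟨.x p, trivial⟩ = num K a b ⟨.x p', trivial⟩ → p = p' := by
    intro p p' h
    have := congrArg Subtype.val ((num K a b).injective h)
    simpa using this
  constructor
  · rintro ⟨w, h1, s', h2, h3⟩
    obtain ⟨q, rfl⟩ := (yy_am hab ha hb hs hi hj C hK w).1 h1
    simp only [xx_am hab ha hb hs hi hj C hK] at h3
    have h4 : ∀ p, num K a b ⟨.x p, trivial⟩ ∈ s' ↔ lnk S p q = false := by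
      intro p
      rw [h3, qq_xy hab ha hb hs hi hj, Bool.not_eq_true]
      exact ⟨fun h => h.2, fun h => ⟨⟨p, rfl⟩, h⟩⟩
    have h5 : s'.Nonempty := by
      rw [← Finset.card_pos]
      omega
    obtain ⟨z, hz⟩ := h5
    obtain ⟨⟨p, rfl⟩, -⟩ := (h3 z).1 hz
    have h6 := (h4 p).1 hz
    simp only [lnk, decide_eq_false_iff_not, not_or] at h6
    obtain ⟨h7, h8, h9⟩ := h6
    have h10 : S (q / 2) = true := by
      cases h : S (q / 2)
      · exact absurd h h9
      · rfl
    have h11 : s' = (Finset.range (q / 2 + 1)).map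
        ⟨fun p => num K a b ⟨.x p, trivial⟩, fun p p' h => hinj p p' h⟩ := by
      ext z
      rw [Finset.mem_map]
      constructor
      · intro hz'
        obtain ⟨⟨p', rfl⟩, -⟩ := (h3 z).1 hz'
        refine ⟨p', ?_, rfl⟩
        have := (h4 p').1 hz'
        simp only [lnk, decide_eq_false_iff_not, not_or] at this
        rw [Finset.mem_range]
        omega
      · rintro ⟨p', hp', rfl⟩
        rw [Finset.mem_range] at hp'
        refine (h4 p').2 ?_
        simp only [lnk, decide_eq_false_iff_not, not_or]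
        exact ⟨h7, by omega, h9⟩
    rw [h11, Finset.card_map, Finset.card_range] at h2
    have : q / 2 = k := by omega
    rw [← this]
    exact h10
  · intro h
    refine ⟨num K a b ⟨.y (2 * k + 1), trivial⟩, (yy_am hab ha hb hs hi hj C hK _).2 ⟨_, rfl⟩,
      (Finset.range (k + 1)).map ⟨fun p => num K a b ⟨.x p, trivial⟩, fun p p' h => hinj p p' h⟩,
      by rw [Finset.card_map, Finset.card_range], fun z => ?_⟩
    rw [Finset.mem_map, xx_am hab ha hb hs hi hj C hK]
    have e : (2 * k + 1) / 2 = k := by omega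
    constructor
    · rintro ⟨p, hp, rfl⟩
      rw [Finset.mem_range] at hp
      refine ⟨⟨p, rfl⟩, ?_⟩
      show ¬ QQ (amI I K a b S) R i j (num K a b ⟨.x p, trivial⟩) _
      rw [qq_xy hab ha hb hs hi hj, Bool.not_eq_true]
      simp only [lnk, decide_eq_false_iff_not, not_or, e, h]
      exact ⟨by omega, by omega, by decide⟩
    · rintro ⟨⟨p, rfl⟩, h1⟩
      rw [qq_xy hab ha hb hs hi hj, Bool.not_eq_true] at h1
      simp only [lnk, decide_eq_false_iff_not, not_or, e] at h1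
      exact ⟨p, Finset.mem_range.2 (by omega), rfl⟩

end dec

end Pool.Agent.K7.H41.GN
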