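import Pool.Agent.K7.H41.GN.Perf
import Pool.Agent.H579R3.SB

set_option autoImplicit false

/-!
Models in which every tuple has at most one unnamed element, and the dichotomy.
-/

namespace Pool.Agent.K7.H41.GN

open FirstOrder Set MeasureTheory Pool.Agent.H565R2.FO2
open Pool.Agent.H565R2.LO2 (PerfK perfK_of_inv)

variable {L : FirstOrder.Language.{0, 0}}

/-- The atomic facts about one element and the named ones. -/
abbrev Ix (C : Set (L.Relations 1)) : Type := Σ n, L.Relations n × (Fin n → Option C)

/-- The type of an element over the named ones. -/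
def TT (C : Set (L.Relations 1)) (I : Interp L ℕ) (u : ℕ) (x : Ix C) : Prop :=
  ∃ t : Fin x.1 → ℕ, I x.1 x.2.1 t ∧ ∀ i, (x.2.2 i = none → t i = u) ∧
    ∀ k : C, x.2.2 i = some k → I 1 k.1 fun _ => t i

/-- At least `n` elements have the type. -/
def LB (C : Set (L.Relations 1)) (I : Interp L ℕ) (p : Ix C → Prop) (n : ℕ) : Prop :=
  ∃ s : Finset ℕ, s.card = n ∧ ∀ v ∈ s, ∀ x, TT C I v x ↔ p x

/-- The same types are realised the same number of times. -/
def EQ (C : Set (L.Relations 1)) (c c' : Code L) : Prop :=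
  ∀ (p : Ix C → Prop) (n : ℕ), LB C (toI c) p n ↔ LB C (toI c') p n

/-- Every tuple has at most one unnamed element. -/
def Flat (C : Set (L.Relations 1)) (I : Interp L ℕ) : Prop :=
  ∀ n (R : L.Relations n) (t : Fin n → ℕ), I n R t → ∀ i j, t i ≠ t j →
    t i ∈ Kc C I ∨ t j ∈ Kc C I

theorem eq_equiv (C : Set (L.Relations 1)) : Equivalence (EQ C) :=
  ⟨fun _ _ _ => Iff.rfl, fun h p n => (h p n).symm, fun h h' p n => (h p n).trans (h' p n)⟩

theorem tt_iso {I I' : Interp L ℕ} (g : ℕ ≃ ℕ)
    (hg : ∀ n (R : L.Relations n) (t : Fin n → ℕ), I n R t ↔ I' n R (fun k => g (t k)))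
    (C : Set (L.Relations 1)) (u : ℕ) (x : Ix C) : TT C I u x ↔ TT C I' (g u) x := by
  constructor
  · rintro ⟨t, h1, h2⟩
    refine ⟨fun k => g (t k), (hg _ _ _).1 h1, fun i => ⟨fun h => ?_, fun k h => ?_⟩⟩
    · exact congrArg g ((h2 i).1 h)
    · exact (hg _ _ _).1 ((h2 i).2 k h)
  · rintro ⟨t, h1, h2⟩
    refine ⟨fun k => g.symm (t k), (hg _ _ _).2 ?_, fun i => ⟨fun h => ?_, fun k h => ?_⟩⟩
    · have : (fun k => g (g.symm (t k))) = t := funext fun k => g.apply_symm_apply _
      rw [this]
      exact h1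
    · show g.symm (t i) = u
      rw [(h2 i).1 h, g.symm_apply_apply]
    · refine (hg _ _ _).2 ?_
      have := (h2 i).2 k h
      show I' 1 k.1 fun _ => g (g.symm (t i))
      rw [g.apply_symm_apply]
      exact this

theorem eq_of_iso (C : Set (L.Relations 1)) {c c' : Code L} (h : Iso c c') : EQ C c c' := by
  obtain ⟨g, hg⟩ := h
  have hg' : ∀ n (R : L.Relations n) (t : Fin n → ℕ),
      toI c n R t ↔ toI c' n R (fun k => g (t k)) := by
    intro n R t
    show _ = true ↔ _ = true
    rw [hg n R t]
  intro p n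
  constructor
  · rintro ⟨s, h1, h2⟩
    refine ⟨s.map g.toEmbedding, by rw [Finset.card_map, h1], fun v hv x => ?_⟩
    rw [Finset.mem_map_equiv] at hv
    rw [← h2 _ hv x, tt_iso g hg', g.apply_symm_apply]
  · rintro ⟨s, h1, h2⟩
    refine ⟨s.map g.symm.toEmbedding, by rw [Finset.card_map, h1], fun v hv x => ?_⟩
    rw [Finset.mem_map_equiv, Equiv.symm_symm] at hv
    rw [← h2 _ hv x, tt_iso g hg']

theorem flat_map {C : Set (L.Relations 1)} {I I' : Interp L ℕ} (hf : Flat C I) (hc' : Con C I')
    (g : ℕ ≃ ℕ) (hg : ∀ u x, TT C I u x ↔ TT C I' (g u) x) (n : ℕ) (R : L.Relations n)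
    (t : Fin n → ℕ) (h : I n R t) : I' n R fun k => g (t k) := by
  classical
  -- one element `u` covers the unnamed values
  obtain ⟨u, hu⟩ : ∃ u, ∀ i, t i ∉ Kc C I → t i = u := by
    by_cases h1 : ∃ i, t i ∉ Kc C I
    · obtain ⟨i, hi⟩ := h1
      refine ⟨t i, fun j hj => ?_⟩
      by_contra hne
      rcases hf n R t h j i hne with h2 | h2
      · exact hj h2
      · exact hi h2
    · exact ⟨0, fun i hi => absurd ⟨i, hi⟩ h1⟩
  have hch : ∀ i, ∃ o : Option C, (o = none → t i = u) ∧
      ∀ k : C, o = some k → I 1 k.1 fun _ => t i := by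
    intro i
    by_cases h1 : t i ∈ Kc C I
    · obtain ⟨R', h2, h3⟩ := h1
      refine ⟨some ⟨R', h2⟩, fun h => absurd h (Option.some_ne_none _), fun k hk => ?_⟩
      rw [Option.some.injEq] at hk
      subst hk
      exact h3
    · exact ⟨none, fun _ => hu i h1, fun k hk => absurd hk.symm (Option.some_ne_none _)⟩
  choose s hs using hch
  obtain ⟨t', h1, h2⟩ := (hg u ⟨n, R, s⟩).1 ⟨t, h, hs⟩
  have h3 : t' = fun k => g (t k) := by
    funext i
    cases hsi : s i with
    | none => rw [(h2 i).1 hsi, (hs i).1 hsi]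
    | some k =>
      have h4 : I' 1 k.1 fun _ => t' i := (h2 i).2 k hsi
      have h5 : I 1 k.1 fun _ => t i := (hs i).2 k hsi
      have h6 : TT C I' (g (t i)) ⟨1, k.1, fun _ => none⟩ :=
        (hg (t i) _).1 ⟨fun _ => t i, h5,
          fun _ => ⟨fun _ => rfl, fun k' h => absurd h.symm (Option.some_ne_none _)⟩⟩
      obtain ⟨t'', h7, h8⟩ := h6
      have h9 : t'' = fun _ => g (t i) := funext fun l => (h8 l).1 rfl
      rw [h9] at h7
      exact (hc' k.1 k.2).unique h4 h7
  rw [← h3]
  exact h1

/-- Flat structures with the same types are isomorphic. -/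
theorem iso_of_eq {C : Set (L.Relations 1)} {c c' : Code L} (hf : Flat C (toI c))
    (hf' : Flat C (toI c')) (hc : Con C (toI c)) (hc' : Con C (toI c')) (h : EQ C c c') :
    Iso c c' := by
  classical
  have hfib : ∀ p : Ix C → Prop,
      Nonempty ({u // TT C (toI c) u = p} ≃ {u // TT C (toI c') u = p}) := by
    intro p
    have := exists_equiv_of_fin (F := {u | TT C (toI c) u = p}) (F' := {u | TT C (toI c') u = p})
      (fun k => by
        have h1 := h p k
        have e : ∀ I : Interp L ℕ, LB C I p k ↔ ∃ s : Finset ℕ, s.card = k ∧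
            ∀ x, x ∈ s → x ∈ {u | TT C I u = p} := by
          intro I
          refine exists_congr fun s => and_congr_right fun _ => forall₂_congr fun v _ => ?_
          show _ ↔ TT C I v = p
          rw [funext_iff]
          exact forall_congr' fun x => propext_iff.symm
        rw [← e, ← e]
        exact h1)
    exact this
  let g : ℕ ≃ ℕ := Equiv.ofFiberEquiv (f := TT C (toI c)) (g := TT C (toI c'))
    fun p => (hfib p).some
  have hg : ∀ u x, TT C (toI c) u x ↔ TT C (toI c') (g u) x := by
    intro u x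
    have : TT C (toI c') (g u) = TT C (toI c) u := Equiv.ofFiberEquiv_map _ u
    rw [this]
  refine ⟨g, fun n R t => ?_⟩
  rw [Bool.eq_iff_iff]
  constructor
  · intro h1
    exact flat_map hf hc' g hg n R t h1
  · intro h1
    have h2 := flat_map hf' hc g.symm (fun u x => by
      rw [hg, g.apply_symm_apply]) n R _ h1
    have e : (fun k => g.symm (g (t k))) = t := funext fun k => g.symm_apply_apply _
    rw [e] at h2
    exact h2

theorem meas_TT [∀ n, Countable (L.Relations n)] (C : Set (L.Relations 1)) (u : ℕ) (x : Ix C) :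
    Measurable (fun c : Code L => TT C (toI c) u x) := by
  unfold TT
  refine Measurable.exists fun t => (meas_toI _ _).and (Measurable.forall fun i => ?_)
  refine measurable_const.and (Measurable.forall fun k => measurable_const.imp ?_)
  exact meas_toI _ _

theorem eq_iff (C : Set (L.Relations 1)) (c c' : Code L) : EQ C c c' ↔
    ∀ u n, (LB C (toI c) (TT C (toI c) u) n ↔ LB C (toI c') (TT C (toI c) u) n) ∧
      (LB C (toI c) (TT C (toI c') u) n ↔ LB C (toI c') (TT C (toI c') u) n) := by
  constructor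
  · exact fun h u n => ⟨h _ _, h _ _⟩
  · intro h p n
    have key : ∀ (I I' : Interp L ℕ), (∀ u n, LB C I (TT C I u) n → LB C I' (TT C I u) n) →
        LB C I p n → LB C I' p n := by
      rintro I I' h1 ⟨s, h2, h3⟩
      rcases s.eq_empty_or_nonempty with rfl | ⟨v, hv⟩
      · exact ⟨∅, h2, fun v hv => absurd hv (Finset.notMem_empty v)⟩
      · have h4 : TT C I v = p := funext fun x => propext (h3 v hv x)
        rw [← h4]
        refine h1 v n ⟨s, h2, fun w hw x => ?_⟩
        rw [h3 w hw x, h4]
    exact ⟨key _ _ fun u n => ((h u n).1).1, key _ _ fun u n => ((h u n).2).2⟩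

theorem meas_EQ [∀ n, Countable (L.Relations n)] (C : Set (L.Relations 1)) :
    MeasurableSet {q : Code L × Code L | EQ C q.1 q.2} := by
  have e : {q : Code L × Code L | EQ C q.1 q.2} = {q | ∀ u n,
      (LB C (toI q.1) (TT C (toI q.1) u) n ↔ LB C (toI q.2) (TT C (toI q.1) u) n) ∧
      (LB C (toI q.1) (TT C (toI q.2) u) n ↔ LB C (toI q.2) (TT C (toI q.2) u) n)} := by
    ext q
    exact eq_iff C q.1 q.2
  rw [e]
  apply measurableSet_setOfPred.2
  have h1 : ∀ u x, Measurable (fun q : Code L × Code L => TT C (toI q.1) u x) := fun u x =>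
    (meas_TT C u x).comp measurable_fst
  have h2 : ∀ u x, Measurable (fun q : Code L × Code L => TT C (toI q.2) u x) := fun u x =>
    (meas_TT C u x).comp measurable_snd
  refine Measurable.forall fun u => Measurable.forall fun n => ?_
  unfold LB
  refine ((Measurable.exists fun s => measurable_const.and ?_).iff
    (Measurable.exists fun s => measurable_const.and ?_)).and
    ((Measurable.exists fun s => measurable_const.and ?_).iff
    (Measurable.exists fun s => measurable_const.and ?_))
  all_goals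
    refine Measurable.forall fun v => Measurable.forall fun _ => Measurable.forall fun x => ?_
    refine Measurable.iff ?_ ?_
    · first
        | exact h1 _ _
        | exact h2 _ _
    · first
        | exact h1 _ _
        | exact h2 _ _

/-- The dichotomy. -/
theorem main [∀ n, Countable (L.Relations n)] (C : Set (L.Relations 1))
    {K : Set (Code L)} (hK : MeasurableSet K) (hcl : Clo C K) :
    (∃ g : ℕ → Code L, ∀ c ∈ MK C K, ∃ n, Iso c (g n)) ∨ PerfK (MK C K) := by
  by_cases hfl : ∀ c ∈ MK C K, Flat C (toI c)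
  · have hP : PolishSpace (Code L) := ⟨⟩
    rcases Pool.Agent.H579R3.SV.silver (eq_equiv C) (meas_EQ C) (meas_MK C hK).analyticSet with
      ⟨S, hS, hSc, hSx⟩ | ⟨h, h3, h4, h5⟩
    · left
      rcases S.eq_empty_or_nonempty with rfl | hne
      · refine ⟨fun _ _ => false, fun c hc => ?_⟩
        obtain ⟨y, hy, -⟩ := hSx c hc
        exact absurd hy (notMem_empty _)
      · obtain ⟨g, rfl⟩ := hSc.exists_eq_range hne
        refine ⟨g, fun c hc => ?_⟩
        obtain ⟨_, ⟨n, rfl⟩, hE⟩ := hSx c hc
        have hgn := hS ⟨n, rfl⟩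
        exact ⟨n, iso_of_eq (hfl c hc) (hfl _ hgn) hc.1 hgn.1 hE⟩
    · right
      refine ⟨h, h3, h4, fun x x' hi => ?_⟩
      by_contra hne
      exact h5 x x' hne (eq_of_iso C hi)
  · right
    simp only [not_forall] at hfl
    obtain ⟨c, hc, hfl⟩ := hfl
    unfold Flat at hfl
    simp only [not_forall, not_or] at hfl
    obtain ⟨n, R, t, ht, i, j, hij, hi, hj⟩ := hfl
    exact perf_of_tuple hcl hc ht hij hi hj

end Pool.Agent.K7.H41.GN
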