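import Pool.Agent.K7.H41.GN.Dec

set_option autoImplicit false

/-!
A tuple with two different unnamed elements gives perfectly many models.
-/

namespace Pool.Agent.K7.H41.GN

open FirstOrder Set MeasureTheory Pool.Agent.H565R2.FO2
open Pool.Agent.H565R2.LO2 (PerfK perfK_of_inv)

variable {L : FirstOrder.Language.{0, 0}}

/-- Codes in `K` in which the symbols in `C` are interpreted by one-element sets. -/
def MK (C : Set (L.Relations 1)) (K : Set (Code L)) : Set (Code L) :=
  {c | Con C (toI c) ∧ c ∈ K}

/-- The class is closed under clique covers which preserve the names. -/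
def Clo (C : Set (L.Relations 1)) (K : Set (Code L)) : Prop :=
  ∀ c ∈ K, ∀ (c' : Code L) (π : ℕ → ℕ), Con C (toI c) → Con C (toI c') →
    Pool.Agent.H480R2.VC.Cover (L := L) (toI c') (toI c) π → c' ∈ K

theorem meas_Con [∀ n, Countable (L.Relations n)] (C : Set (L.Relations 1)) :
    Measurable (fun c : Code L => Con C (toI c)) := by
  unfold Con ExistsUnique
  refine Measurable.forall fun R => Measurable.forall fun _ => Measurable.exists fun u => ?_
  exact (meas_toI R _).and (Measurable.forall fun w => (meas_toI R _).imp measurable_const)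

theorem meas_MK [∀ n, Countable (L.Relations n)] (C : Set (L.Relations 1)) {K : Set (Code L)}
    (hK : MeasurableSet K) : MeasurableSet (MK C K) :=
  (measurableSet_setOfPred.2 (meas_Con C)).inter hK

theorem meas_Kc [∀ n, Countable (L.Relations n)] (C : Set (L.Relations 1)) (u : ℕ) :
    Measurable (fun c : Code L => u ∈ Kc C (toI c)) := by
  show Measurable (fun c : Code L => ∃ R, R ∈ C ∧ toI c 1 R fun _ => u)
  exact Measurable.exists fun R => measurable_const.and (meas_toI R _)

theorem meas_QQ {n : ℕ} (R : L.Relations n) (i j : Fin n) (u w : ℕ) :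
    Measurable (fun c : Code L => QQ (toI c) R i j u w) := by
  unfold QQ
  exact Measurable.exists fun t => (meas_toI R _).and measurable_const

theorem meas_XX [∀ n, Countable (L.Relations n)] (C : Set (L.Relations 1)) {n : ℕ}
    (R : L.Relations n) (i j : Fin n) (u0 u1 w : ℕ) :
    Measurable (fun c : Code L => XX C (toI c) R i j u0 u1 w) := by
  unfold XX
  exact (meas_Kc C w).not.and ((meas_QQ R i j _ _).and (meas_QQ R i j _ _))

theorem meas_YY [∀ n, Countable (L.Relations n)] (C : Set (L.Relations 1)) {n : ℕ}
    (R : L.Relations n) (i j : Fin n) (u0 u1 w : ℕ) :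
    Measurable (fun c : Code L => YY C (toI c) R i j u0 u1 w) := by
  unfold YY
  refine (meas_Kc C w).not.and (Measurable.exists fun x => Measurable.exists fun x' => ?_)
  exact measurable_const.and ((meas_XX C R i j _ _ _).and ((meas_XX C R i j _ _ _).and
    ((meas_QQ R i j _ _).and (meas_QQ R i j _ _))))

theorem meas_IN [∀ n, Countable (L.Relations n)] (C : Set (L.Relations 1)) {n : ℕ}
    (R : L.Relations n) (i j : Fin n) (p : ℕ × ℕ) (k : ℕ) :
    Measurable (fun c : Code L => IN C (toI c) R i j p k) := by
  unfold IN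
  refine Measurable.exists fun w => (meas_YY C R i j _ _ _).and (Measurable.exists fun s => ?_)
  refine measurable_const.and (Measurable.forall fun z => measurable_const.iff ?_)
  exact (meas_XX C R i j _ _ _).and (meas_QQ R i j _ _).not

theorem cpy_dep (S : ℕ → Bool) (K : Set ℕ) (a b : ℕ) (t : ℕ × ℕ × Bool) (m : ℕ) :
    cpy S K a b t m = cpy (fun _ => S (t.2.1 / 2)) K a b t m := rfl

theorem meas_cpy (K : Set ℕ) (a b : ℕ) (t : ℕ × ℕ × Bool) (m : ℕ) :
    Measurable (fun S : ℕ → Bool => cpy S K a b t m) := by
  have h : (fun S : ℕ → Bool => cpy S K a b t m) =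
      (fun β : Bool => cpy (fun _ => β) K a b t m) ∘ fun S => S (t.2.1 / 2) := by
    funext S
    exact cpy_dep S K a b t m
  rw [h]
  exact measurable_from_top.comp (measurable_pi_apply _)

open Classical in
theorem meas_amI [∀ n, Countable (L.Relations n)] (I : Interp L ℕ) (K : Set ℕ) (a b : ℕ) :
    Measurable (fun S : ℕ → Bool => ofI (amI I K a b S)) := by
  rw [measurable_pi_iff]
  rintro ⟨n, R, t⟩
  apply measurable_to_bool
  have : (fun S : ℕ → Bool => ofI (amI I K a b S) ⟨n, R, t⟩) ⁻¹' {true} =
      {S | ∃ (i : ℕ × ℕ × Bool) (s : Fin n → ℕ), I n R s ∧ ∀ k, cpy S K a b i (s k) = t k} := by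
    ext S
    refine Iff.trans (b := amI I K a b S n R t) decide_eq_true_iff ?_
    refine exists_congr fun i => exists_congr fun s => and_congr_right fun _ => ?_
    rw [funext_iff]
    exact forall_congr' fun k => eq_comm
  rw [this]
  apply measurableSet_setOfPred.2
  refine Measurable.exists fun i => Measurable.exists fun s => measurable_const.and ?_
  refine Measurable.forall fun k => ?_
  exact measurableSet_setOfPred.1 ((meas_cpy K a b i (s k)) (measurableSet_singleton (t k)))

/-- A tuple with two different unnamed elements gives perfectly many models. -/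
theorem perf_of_tuple [∀ n, Countable (L.Relations n)] {C : Set (L.Relations 1)}
    {K : Set (Code L)} (hK : Clo C K) {c : Code L} (hc : c ∈ MK C K) {n : ℕ} {R : L.Relations n}
    {i j : Fin n} {s : Fin n → ℕ} (hs : toI c n R s) (hij : s i ≠ s j)
    (hi : s i ∉ Kc C (toI c)) (hj : s j ∉ Kc C (toI c)) : PerfK (MK C K) := by
  classical
  have hinj : Function.Injective (fun S : ℕ → Bool => fun k => decide (S k = true)) := by
    intro S S' h
    funext k
    have := congrFun h k
    simpa using this
  refine perfK_of_inv (Y := ℕ → Bool) (Z := ℕ → Bool) (ι := ℕ × ℕ)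
    (fun S => ofI (amI (toI c) (Kc C (toI c)) (s i) (s j) S))
    (meas_amI (toI c) (Kc C (toI c)) (s i) (s j)) (fun S => ⟨?_, ?_⟩)
    (fun p S k => decide (IN C (toI (ofI (amI (toI c) (Kc C (toI c)) (s i) (s j) S))) R i j p k))
    (fun p => ?_) ?_ ?_
  · rw [toI_ofI]
    exact con_am C rfl hc.1
  · refine hK c hc.2 _ (fun u => prj (s i) (s j) ((num (Kc C (toI c)) (s i) (s j)).symm u).1)
      hc.1 (by rw [toI_ofI]; exact con_am C rfl hc.1) ?_
    rw [toI_ofI]
    exact cover_of_cov (cov_am (toI c) hij hi hj S)
  · rw [measurable_pi_iff]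
    intro k
    apply measurable_to_bool
    have : (fun S : ℕ → Bool => decide (IN C (toI (ofI (amI (toI c) (Kc C (toI c)) (s i) (s j) S)))
        R i j p k)) ⁻¹' {true} = (fun S : ℕ → Bool =>
          ofI (amI (toI c) (Kc C (toI c)) (s i) (s j) S)) ⁻¹' {c | IN C (toI c) R i j p k} := by
      ext S
      simp
    rw [this]
    exact (meas_amI _ _ _ _) (measurableSet_setOfPred.2 (meas_IN C R i j p k))
  · rintro S S' ⟨g, hg⟩ p
    refine ⟨(g p.1, g p.2), ?_⟩
    funext k
    refine decide_eq_decide.2 ?_
    exact in_iso g (fun n R t => by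
      show _ = true ↔ _ = true
      rw [hg n R t]) C R i j p k
  · intro hcount
    have h3 : range (fun S : ℕ → Bool => fun k =>
        decide (IN C (toI (ofI (amI (toI c) (Kc C (toI c)) (s i) (s j) S))) R i j
          (num (Kc C (toI c)) (s i) (s j) ⟨.y 0, trivial⟩,
            num (Kc C (toI c)) (s i) (s j) ⟨.y 2, trivial⟩) k)) = univ := by
      refine eq_univ_of_forall fun S => ⟨S, ?_⟩
      funext k
      show decide (IN C (toI (ofI (amI (toI c) (Kc C (toI c)) (s i) (s j) S))) R i j
          (num (Kc C (toI c)) (s i) (s j) ⟨.y 0, trivial⟩,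
            num (Kc C (toI c)) (s i) (s j) ⟨.y 2, trivial⟩) k) = S k
      rw [toI_ofI]
      have := in_am hij hi hj hs rfl rfl C rfl k (S := S)
      rw [Bool.eq_iff_iff, decide_eq_true_eq]
      exact this
    have h4 := hcount.mono (subset_iUnion _ (num (Kc C (toI c)) (s i) (s j) ⟨.y 0, trivial⟩,
            num (Kc C (toI c)) (s i) (s j) ⟨.y 2, trivial⟩))
    rw [h3] at h4
    exact Cfg.cantor_unc h4

end Pool.Agent.K7.H41.GN
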