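import Pool.Agent.H834V.Adapt
import Pool.Agent.H480R2.VC.Main

set_option autoImplicit false

/-!
Structures glued from copies of one structure are clique covers of it.
-/

namespace Pool.Agent.K7.H41.GN

open FirstOrder Set Pool.Agent.H565R2.FO2

variable {L : FirstOrder.Language.{0, 0}}

/-- `N` is a union of copies of `M`, with a projection to `M`, and every clique of `N` lies in one
copy. -/
structure Cov {M N ι : Type} (I : Interp L M) (I' : Interp L N) (e : ι → M → N) (π : N → M) :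
    Prop where
  ne : Nonempty ι
  inv : ∀ i m, π (e i m) = m
  rel : ∀ n R (t : Fin n → N), I' n R t ↔ ∃ i s, I n R s ∧ t = fun k => e i (s k)
  all : ∀ u : N, ∃ i, u ∈ range (e i)
  clq : ∀ Q : Set N, (∀ u ∈ Q, ∀ w ∈ Q, ∃ i, u ∈ range (e i) ∧ w ∈ range (e i)) →
    ∃ i, ∀ u ∈ Q, u ∈ range (e i)

theorem cover_of_cov {M N ι : Type} {I : Interp L M} {I' : Interp L N} {e : ι → M → N}
    {π : N → M} (h : Cov I I' e π) : Pool.Agent.H480R2.VC.Cover (L := L) I' I π := by
  constructor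
  · intro n R t ht
    obtain ⟨i, s, hs, rfl⟩ := (h.rel n R t).1 ht
    have : (π ∘ fun k => e i (s k)) = s := funext fun k => h.inv i (s k)
    rw [this]
    exact hs
  · intro Q hQ
    obtain ⟨i, hi⟩ := h.clq Q (by
      intro u hu w hw
      by_cases huw : u = w
      · subst huw
        obtain ⟨i, hi⟩ := h.all u
        exact ⟨i, hi, hi⟩
      · obtain ⟨n, R, t, ht, ⟨p, rfl⟩, ⟨q, rfl⟩⟩ := hQ u hu w hw huw
        obtain ⟨i, s, hs, rfl⟩ := (h.rel n R t).1 ht
        exact ⟨i, ⟨s p, rfl⟩, ⟨s q, rfl⟩⟩)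
    refine ⟨e i, h.inv i, fun n R t ht => (h.rel n R _).2 ⟨i, t, ht, rfl⟩, fun u hu => ?_⟩
    obtain ⟨m, rfl⟩ := hi u hu
    rw [h.inv]

end Pool.Agent.K7.H41.GN
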